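import Pool.Agent.Helper64.MH.Defs

/-! Part CELLT of the MH swarm (helper64): the inequality for one cell in the space. -/

set_option autoImplicit false

noncomputable section

namespace MH.H79

open MeasureTheory Matrix
open scoped ENNReal Pointwise

/-- the weight in linear coordinates -/
lemma cov {I J : Type} [Fintype I] [Fintype J] {d : ℕ}
    (L : ((I → ℝ) × (J → ℝ)) ≃L[ℝ] (Fin d → ℝ)) (e : Fin d → ℝ)
    (he : ∀ z, e ⬝ᵥ L z = ∑ i, z.1 i + ∑ j, z.2 j) :
    ∃ c : ℝ≥0∞, ∀ X, W e X = c * w (L ⁻¹' X) := by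
  let vol : Measure ((I → ℝ) × (J → ℝ)) := volume
  let μ : Measure (Fin d → ℝ) := vol.map L
  have i1 : vol.IsAddHaarMeasure := Measure.prod.instIsAddHaarMeasure _ _
  have i2 : μ.IsAddHaarMeasure := L.isAddHaarMeasure_map vol
  have h1 : (volume : Measure (Fin d → ℝ)) =
      Measure.addHaarScalarFactor (volume : Measure (Fin d → ℝ)) μ • μ :=
    Measure.isAddLeftInvariant_eq_smul _ _
  let M := L.toHomeomorph.toMeasurableEquiv
  refine ⟨(Measure.addHaarScalarFactor (volume : Measure (Fin d → ℝ)) μ : ℝ≥0∞), fun X => ?_⟩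
  unfold W w
  conv_lhs => rw [h1]
  rw [Measure.restrict_smul, lintegral_smul_measure]
  have h2 : μ.restrict X = (vol.restrict (L ⁻¹' X)).map M := by
    have h3 : μ = vol.map M := rfl
    rw [h3, M.restrict_map]
    rfl
  rw [h2, lintegral_map_equiv]
  have h4 : ∀ z, e ⬝ᵥ (M z) = ∑ i, z.1 i + ∑ j, z.2 j := fun z => he z
  simp only [h4]
  rfl

lemma integral_one : ∫ x : ℝ, (Set.Ici (0 : ℝ)).indicator (fun x => Real.exp (-x)) x = 1 := by
  rw [integral_indicator measurableSet_Ici, integral_Ici_eq_integral_Ioi]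
  exact integral_exp_neg_Ioi_zero

lemma integrable_one : Integrable ((Set.Ici (0 : ℝ)).indicator (fun x => Real.exp (-x))) := by
  rw [integrable_indicator_iff measurableSet_Ici, integrableOn_Ici_iff_integrableOn_Ioi]
  have := exp_neg_integrableOn_Ioi 0 (b := 1) one_pos
  simpa using this

lemma lint_one (I : Type) [Fintype I] :
    ∫⁻ x : I → ℝ, ENNReal.ofReal (∏ i, (Set.Ici (0 : ℝ)).indicator (fun x => Real.exp (-x)) (x i))
      = 1 := by
  rw [← ofReal_integral_eq_lintegral_ofReal]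
  · rw [integral_fintype_prod_volume_eq_prod (fun (_ : I) x =>
      (Set.Ici (0 : ℝ)).indicator (fun x => Real.exp (-x)) x)]
    simp only [integral_one]
    simp
  · exact Integrable.fintype_prod (f := fun (_ : I) x =>
      (Set.Ici (0 : ℝ)).indicator (fun x => Real.exp (-x)) x) (fun _ => integrable_one)
  · filter_upwards with x
    exact Finset.prod_nonneg fun i _ => Set.indicator_nonneg (fun _ _ => (Real.exp_pos _).le) _

/-- the weight of the orthant -/
lemma w_orth (I J : Type) [Fintype I] [Fintype J] (X : Set ((I → ℝ) × (J → ℝ)))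
    (hX : ∀ z ∈ X, (∀ i, 0 ≤ z.1 i) ∧ ∀ j, 0 ≤ z.2 j) : w X ≤ 1 := by
  let f : ∀ (I : Type) [Fintype I], (I → ℝ) → ℝ := fun I _ x =>
    ∏ i, (Set.Ici (0 : ℝ)).indicator (fun x => Real.exp (-x)) (x i)
  have hf0 : ∀ (I : Type) [Fintype I] (x : I → ℝ), 0 ≤ f I x := fun I _ x =>
    Finset.prod_nonneg fun i _ => Set.indicator_nonneg (fun _ _ => (Real.exp_pos _).le) _
  have hfm : ∀ (I : Type) [Fintype I], Measurable (f I) := by
    intro I _
    refine Finset.measurable_prod _ fun i _ => ?_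
    exact (Measurable.indicator (by fun_prop) measurableSet_Ici).comp (measurable_pi_apply i)
  have hfe : ∀ (I : Type) [Fintype I] (x : I → ℝ), (∀ i, 0 ≤ x i) →
      f I x = Real.exp (-∑ i, x i) := by
    intro I _ x hx
    rw [← Finset.sum_neg_distrib, Real.exp_sum]
    refine Finset.prod_congr rfl fun i _ => ?_
    rw [Set.indicator_of_mem (Set.mem_Ici.2 (hx i))]
  have h1 : w X ≤ ∫⁻ z : (I → ℝ) × (J → ℝ), ENNReal.ofReal (f I z.1) * ENNReal.ofReal (f J z.2) := by
    have hm : Measurable fun z : (I → ℝ) × (J → ℝ) =>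
        ENNReal.ofReal (f I z.1) * ENNReal.ofReal (f J z.2) :=
      ((hfm I).comp measurable_fst).ennreal_ofReal.mul ((hfm J).comp measurable_snd).ennreal_ofReal
    have h2 : w X ≤ ∫⁻ z in X, ENNReal.ofReal (f I z.1) * ENNReal.ofReal (f J z.2) := by
      refine setLIntegral_mono hm fun z hz => ?_
      obtain ⟨h3, h4⟩ := hX z hz
      rw [hfe I z.1 h3, hfe J z.2 h4, ← ENNReal.ofReal_mul (Real.exp_pos _).le, ← Real.exp_add,
        neg_add]
    exact h2.trans (setLIntegral_le_lintegral _ _)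
  refine h1.trans (le_of_eq ?_)
  rw [Measure.volume_eq_prod, lintegral_prod_mul (f := fun x => ENNReal.ofReal (f I x))
    (g := fun x => ENNReal.ofReal (f J x)) (hfm I).ennreal_ofReal.aemeasurable
    (hfm J).ennreal_ofReal.aemeasurable]
  rw [lint_one, lint_one, one_mul]

/-- sums over a subset -/
lemma sum_ext {τ : Type} [Fintype τ] {M : Type} [AddCommMonoid M] (p : τ → Prop)
    [Fintype {t // p t}] (f : τ → M) (hf : ∀ t, ¬ p t → f t = 0) :
    ∑ t, f t = ∑ i : {t // p t}, f i := by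
  classical
  rw [← Finset.sum_subtype (Finset.univ.filter p) (by simp)]
  rw [Finset.sum_filter_of_ne]
  intro t _ ht
  by_contra h
  exact ht (hf t h)

lemma cone_mem {τ : Type} [Fintype τ] {d : ℕ} (v : τ → Fin d → ℝ) (U : Set τ)
    [Fintype {t // t ∈ U}] (y : {t // t ∈ U} → ℝ) (hy : ∀ i, 0 ≤ y i) :
    ∑ i, y i • v i ∈ cone v U := by
  classical
  refine ⟨fun t => if h : t ∈ U then y ⟨t, h⟩ else 0, fun t => ?_, fun t ht => dif_neg ht, ?_⟩
  · by_cases h : t ∈ U
    · simp only [dif_pos h]; exact hy _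
    · simp only [dif_neg h]; exact le_rfl
  · rw [sum_ext (fun t => t ∈ U)]
    · refine Finset.sum_congr rfl fun i _ => ?_
      simp only [dif_pos i.2]
    · intro t ht
      simp only [dif_neg ht, zero_smul]

theorem cellt_thm (hC : S_CELL) : S_CELLT := by
  classical
  intro τ _ d v e b T A hev hli hsp hA
  let I := {t // t ∈ T ∩ b}
  let J := {t // t ∈ T ∩ bᶜ}
  have : Fintype I := Fintype.ofFinite _
  have : Fintype J := Fintype.ofFinite _
  have : Fintype T := Fintype.ofFinite _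
  -- the rescaled vectors
  let a : τ → Fin d → ℝ := fun t => (e ⬝ᵥ v t)⁻¹ • v t
  have hea : ∀ t, e ⬝ᵥ a t = 1 := by
    intro t
    show e ⬝ᵥ ((e ⬝ᵥ v t)⁻¹ • v t) = 1
    rw [dotProduct_smul, smul_eq_mul, inv_mul_cancel₀ (hev t).ne']
  -- the basis
  let B0 : Module.Basis T ℝ (Fin d → ℝ) := Module.Basis.mk hli (by
    rw [← hsp]
    apply le_of_eq
    congr 1
    ext x
    simp)
  have hB0 : ∀ t : T, B0 t = v t := fun t => by
    show Module.Basis.mk hli _ t = v t
    rw [Module.Basis.mk_apply]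
  let B1 : Module.Basis T ℝ (Fin d → ℝ) := B0.isUnitSMul (w := fun t => (e ⬝ᵥ v t)⁻¹)
    (fun t => (isUnit_iff_ne_zero.2 (inv_ne_zero (hev t).ne')))
  have hB1 : ∀ t : T, B1 t = a t := fun t => by
    show (B0.isUnitSMul _) t = _
    rw [Module.Basis.isUnitSMul_apply, hB0]
  let q : I ⊕ J → T := Sum.elim (fun i => ⟨i.1, i.2.1⟩) (fun j => ⟨j.1, j.2.1⟩)
  have hq : Function.Bijective q := by
    constructor
    · rintro (i | i) (j | j) h
      · have := congrArg Subtype.val h
        exact congrArg Sum.inl (Subtype.ext this)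
      · exfalso
        have h2 : i.1 = j.1 := congrArg Subtype.val h
        exact j.2.2 (h2 ▸ i.2.2)
      · exfalso
        have h2 : i.1 = j.1 := congrArg Subtype.val h
        exact i.2.2 (h2 ▸ j.2.2)
      · have := congrArg Subtype.val h
        exact congrArg Sum.inr (Subtype.ext this)
    · rintro ⟨t, ht⟩
      by_cases hb : t ∈ b
      · exact ⟨Sum.inl ⟨t, ht, hb⟩, rfl⟩
      · exact ⟨Sum.inr ⟨t, ht, hb⟩, rfl⟩
  let B : Module.Basis (I ⊕ J) ℝ (Fin d → ℝ) := B1.reindex (Equiv.ofBijective q hq).symm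
  have hB : ∀ s, B s = a (q s) := fun s => by
    show (B1.reindex _) s = _
    rw [Module.Basis.reindex_apply, hB1]
    rfl
  have hcard : Fintype.card I + Fintype.card J = d := by
    rw [← Fintype.card_sum, ← Module.finrank_eq_card_basis B, Module.finrank_fin_fun]
  let L0 : ((I → ℝ) × (J → ℝ)) ≃ₗ[ℝ] (Fin d → ℝ) :=
    (LinearEquiv.sumArrowLequivProdArrow I J ℝ ℝ).symm.trans B.equivFun.symm
  let L : ((I → ℝ) × (J → ℝ)) ≃L[ℝ] (Fin d → ℝ) := L0.toContinuousLinearEquiv
  have hL : ∀ z, L z = ∑ i, z.1 i • a i + ∑ j, z.2 j • a j := by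
    intro z
    show B.equivFun.symm ((LinearEquiv.sumArrowLequivProdArrow I J ℝ ℝ).symm z) = _
    rw [Module.Basis.equivFun_symm_apply, Fintype.sum_sum_type]
    congr 1
    · refine Finset.sum_congr rfl fun i _ => ?_
      rw [hB]
      rfl
    · refine Finset.sum_congr rfl fun i _ => ?_
      rw [hB]
      rfl
  have heL : ∀ z, e ⬝ᵥ L z = ∑ i, z.1 i + ∑ j, z.2 j := by
    intro z
    rw [hL, dotProduct_add, dotProduct_sum, dotProduct_sum]
    simp only [dotProduct_smul, hea, smul_eq_mul, mul_one]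
  obtain ⟨c, hc⟩ := cov L e heL
  -- nonnegative combinations
  have hdiv : ∀ t (r : ℝ), r • a t = (r * (e ⬝ᵥ v t)⁻¹) • v t := fun t r => smul_smul _ _ _
  -- the preimages
  have hX : W e (cone v T) ≤ c := by
    rw [hc]
    refine (mul_le_mul_right (w_orth I J _ ?_) c).trans (le_of_eq (mul_one c))
    intro z hz
    obtain ⟨l, hl0, hlT, hl⟩ := hz
    let z' : (I → ℝ) × (J → ℝ) := (fun i => l i * (e ⬝ᵥ v i), fun j => l j * (e ⬝ᵥ v j))
    have h1 : L z' = L z := by
      rw [hl, hL]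
      have h2 : ∀ t, (l t * (e ⬝ᵥ v t)) • a t = l t • v t := by
        intro t
        rw [hdiv, mul_assoc, mul_inv_cancel₀ (hev t).ne', mul_one]
      simp only [z', h2]
      have h3 : ∑ t, l t • v t = ∑ t : T, l t • v t := by
        rw [sum_ext (fun t => t ∈ T)]
        intro t ht
        rw [hlT t ht, zero_smul]
      rw [h3, ← (Equiv.ofBijective q hq).sum_comp, Fintype.sum_sum_type]
      rfl
    have h4 := L.injective h1
    rw [← h4]
    exact ⟨fun i => mul_nonneg (hl0 _) (hev _).le, fun j => mul_nonneg (hl0 _) (hev _).le⟩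
  let A' := L ⁻¹' A
  have hA' : IsSigmaCompact A' := by
    have h1 : A' = L.symm '' A := by
      ext z
      constructor
      · intro hz
        exact ⟨L z, hz, L.symm_apply_apply z⟩
      · rintro ⟨x, hx, rfl⟩
        show L (L.symm x) ∈ A
        rw [L.apply_symm_apply]
        exact hx
    rw [h1]
    exact hA.image L.symm.continuous
  have hdec : ∀ z p : (I → ℝ) × (J → ℝ), L z = (5 / 8 : ℝ) • L p + L (z - (5 / 8 : ℝ) • p) := by
    intro z p
    rw [map_sub, map_smul]
    abel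
  have hU : c * w (upL A') ≤ W e ((5 / 8 : ℝ) • A + cone v (T ∩ b)) := by
    rw [hc]
    refine mul_le_mul_right (lintegral_mono_set ?_) c
    rintro z ⟨p, hp, h1, h2⟩
    show L z ∈ ((5 / 8 : ℝ) • A + cone v (T ∩ b))
    rw [hdec z p]
    refine Set.add_mem_add (Set.smul_mem_smul_set hp) ?_
    rw [hL]
    have h3 : ∀ j : J, (z - (5 / 8 : ℝ) • p).2 j = 0 := by
      intro j
      simp only [Prod.snd_sub, Prod.smul_snd, Pi.sub_apply, Pi.smul_apply, smul_eq_mul, h2 j,
        sub_self]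
    simp only [h3, zero_smul, Finset.sum_const_zero, add_zero]
    simp only [hdiv]
    refine cone_mem v (T ∩ b) (fun i => (z - (5 / 8 : ℝ) • p).1 i * (e ⬝ᵥ v i)⁻¹) ?_
    intro i
    refine mul_nonneg ?_ (inv_nonneg.2 (hev _).le)
    simp only [Prod.fst_sub, Prod.smul_fst, Pi.sub_apply, Pi.smul_apply, smul_eq_mul]
    linarith [h1 i]
  have hR : c * w (upR A') ≤ W e ((5 / 8 : ℝ) • A + cone v (T ∩ bᶜ)) := by
    rw [hc]
    refine mul_le_mul_right (lintegral_mono_set ?_) c
    rintro z ⟨p, hp, h1, h2⟩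
    show L z ∈ ((5 / 8 : ℝ) • A + cone v (T ∩ bᶜ))
    rw [hdec z p]
    refine Set.add_mem_add (Set.smul_mem_smul_set hp) ?_
    rw [hL]
    have h3 : ∀ i : I, (z - (5 / 8 : ℝ) • p).1 i = 0 := by
      intro j
      simp only [Prod.fst_sub, Prod.smul_fst, Pi.sub_apply, Pi.smul_apply, smul_eq_mul, h1 j,
        sub_self]
    simp only [h3, zero_smul, Finset.sum_const_zero, zero_add]
    simp only [hdiv]
    refine cone_mem v (T ∩ bᶜ) (fun i => (z - (5 / 8 : ℝ) • p).2 i * (e ⬝ᵥ v i)⁻¹) ?_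
    intro i
    refine mul_nonneg ?_ (inv_nonneg.2 (hev _).le)
    simp only [Prod.snd_sub, Prod.smul_snd, Pi.sub_apply, Pi.smul_apply, smul_eq_mul]
    linarith [h2 i]
  have hmain := hC I J A' hA'
  rw [hcard] at hmain
  calc kk d * W e A ^ 5 * W e (cone v T) ^ 3 ≤ kk d * (c * w A') ^ 5 * c ^ 3 := by
        rw [hc A]
        gcongr
    _ = c ^ 8 * (kk d * w A' ^ 5) := by ring
    _ ≤ c ^ 8 * (w (upL A') * w (upR A')) ^ 4 := by gcongr
    _ = ((c * w (upL A')) * (c * w (upR A'))) ^ 4 := by ring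
    _ ≤ _ := by gcongr

end MH.H79
end
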