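import Pool.Agent.Helper64.MH.Defs

/-! Part TENS of the MH swarm (helper64): powers of a body. -/

set_option autoImplicit false

noncomputable section

namespace MH.H79

open MeasureTheory Matrix
open scoped ENNReal Pointwise

/-- the concatenation of vectors -/
def app (m n : ℕ) : ((Fin m → ℝ) × (Fin n → ℝ)) ≃ᵐ (Fin (m + n) → ℝ) :=
  (MeasurableEquiv.sumPiEquivProdPi (fun _ : Fin m ⊕ Fin n => ℝ)).symm.trans
    (MeasurableEquiv.piCongrLeft (fun _ : Fin (m + n) => ℝ) finSumFinEquiv)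

lemma app_mp (m n : ℕ) : MeasurePreserving (app m n) volume volume :=
  (volume_measurePreserving_sumPiEquivProdPi_symm (fun _ : Fin m ⊕ Fin n => ℝ)).trans
    (volume_measurePreserving_piCongrLeft (fun _ : Fin (m + n) => ℝ) finSumFinEquiv)

lemma app_castAdd (m n : ℕ) (z : (Fin m → ℝ) × (Fin n → ℝ)) (i : Fin m) :
    app m n z (Fin.castAdd n i) = z.1 i := by
  have h : Fin.castAdd n i = finSumFinEquiv (Sum.inl i) := (finSumFinEquiv_apply_left i).symm
  rw [h]
  exact Equiv.piCongrLeft_apply_apply (fun _ : Fin (m + n) => ℝ) finSumFinEquiv _ (Sum.inl i)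

lemma app_natAdd (m n : ℕ) (z : (Fin m → ℝ) × (Fin n → ℝ)) (i : Fin n) :
    app m n z (Fin.natAdd m i) = z.2 i := by
  have h : Fin.natAdd m i = finSumFinEquiv (Sum.inr i) := (finSumFinEquiv_apply_right i).symm
  rw [h]
  exact Equiv.piCongrLeft_apply_apply (fun _ : Fin (m + n) => ℝ) finSumFinEquiv _ (Sum.inr i)

/-- the product body -/
def prodB {m n : ℕ} (K : Set (Fin m → ℝ)) (M : Set (Fin n → ℝ)) : Set (Fin (m + n) → ℝ) :=
  {x | (fun i => x (Fin.castAdd n i)) ∈ K ∧ (fun i => x (Fin.natAdd m i)) ∈ M}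

lemma app_pre {m n : ℕ} (K : Set (Fin m → ℝ)) (M : Set (Fin n → ℝ)) :
    (app m n) ⁻¹' (prodB K M) = K ×ˢ M := by
  ext z
  simp only [prodB, Set.mem_preimage, Set.mem_ofPred_eq, app_castAdd, app_natAdd, Set.mem_prod]

lemma app_surj {m n : ℕ} (x : Fin (m + n) → ℝ) :
    app m n (fun i => x (Fin.castAdd n i), fun i => x (Fin.natAdd m i)) = x := by
  funext i
  refine Fin.addCases (fun j => ?_) (fun j => ?_) i
  · rw [app_castAdd]
  · rw [app_natAdd]

lemma dot_app {m n : ℕ} (x y : Fin (m + n) → ℝ) :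
    x ⬝ᵥ y = (fun i => x (Fin.castAdd n i)) ⬝ᵥ (fun i => y (Fin.castAdd n i)) +
      (fun i => x (Fin.natAdd m i)) ⬝ᵥ (fun i => y (Fin.natAdd m i)) := by
  simp only [dotProduct, Fin.sum_univ_add]

lemma image_app {m n : ℕ} (K : Set (Fin m → ℝ)) (M : Set (Fin n → ℝ)) (y : Fin (m + n) → ℝ) :
    (fun x : Fin (m + n) → ℝ => x ⬝ᵥ y) '' (prodB K M) =
      (fun x : Fin m → ℝ => x ⬝ᵥ (fun i => y (Fin.castAdd n i))) '' K +
      (fun x : Fin n → ℝ => x ⬝ᵥ (fun i => y (Fin.natAdd m i))) '' M := by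
  ext r
  constructor
  · rintro ⟨x, ⟨h1, h2⟩, rfl⟩
    refine ⟨_, ⟨_, h1, rfl⟩, _, ⟨_, h2, rfl⟩, ?_⟩
    exact (dot_app x y).symm
  · rintro ⟨_, ⟨a, ha, rfl⟩, _, ⟨b, hb, rfl⟩, rfl⟩
    refine ⟨app m n (a, b), ?_, ?_⟩
    · have : (a, b) ∈ (app m n) ⁻¹' (prodB K M) := by
        rw [app_pre]
        exact ⟨ha, hb⟩
      exact this
    · show app m n (a, b) ⬝ᵥ y = _
      rw [dot_app]
      simp only [app_castAdd, app_natAdd]

lemma cont_dot {n : ℕ} : Continuous (fun p : (Fin n → ℝ) × (Fin n → ℝ) => p.2 ⬝ᵥ p.1) := by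
  unfold dotProduct
  fun_prop

lemma hs_cont {n : ℕ} {K : Set (Fin n → ℝ)} (hK : IsCompact K) : Continuous (hs K) := by
  have := hK.continuous_sSup (f := fun (y x : Fin n → ℝ) => x ⬝ᵥ y) cont_dot
  exact this

lemma hs_prod {m n : ℕ} {K : Set (Fin m → ℝ)} {M : Set (Fin n → ℝ)} (hK : Bd K) (hM : Bd M)
    (z : (Fin m → ℝ) × (Fin n → ℝ)) : hs (prodB K M) (app m n z) = hs K z.1 + hs M z.2 := by
  unfold hs
  rw [image_app]
  simp only [app_castAdd, app_natAdd]
  have hKn : K.Nonempty := ⟨0, interior_subset hK.2.2⟩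
  have hMn : M.Nonempty := ⟨0, interior_subset hM.2.2⟩
  have c1 : Continuous (fun x : Fin m → ℝ => x ⬝ᵥ z.1) := by unfold dotProduct; fun_prop
  have c2 : Continuous (fun x : Fin n → ℝ => x ⬝ᵥ z.2) := by unfold dotProduct; fun_prop
  exact csSup_add (hKn.image _) (hK.2.1.image c1).bddAbove (hMn.image _)
    (hM.2.1.image c2).bddAbove

lemma bd_prod {m n : ℕ} {K : Set (Fin m → ℝ)} {M : Set (Fin n → ℝ)} (hK : Bd K) (hM : Bd M) :
    Bd (prodB K M) := by
  obtain ⟨k1, k2, k3⟩ := hK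
  obtain ⟨m1, m2, m3⟩ := hM
  refine ⟨?_, ?_, ?_⟩
  · rintro x ⟨hx1, hx2⟩ y ⟨hy1, hy2⟩ a b ha hb hab
    exact ⟨k1 hx1 hy1 ha hb hab, m1 hx2 hy2 ha hb hab⟩
  · have h1 : prodB K M = (app m n) '' (K ×ˢ M) := by
      rw [← app_pre, Set.image_preimage_eq _ (app m n).surjective]
    rw [h1]
    refine (k2.prod m2).image ?_
    refine continuous_pi fun i => ?_
    refine Fin.addCases (fun j => ?_) (fun j => ?_) i
    · simp only [app_castAdd]; fun_prop
    · simp only [app_natAdd]; fun_prop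
  · rw [mem_interior_iff_mem_nhds] at *
    have p1 : Continuous (fun x : Fin (m + n) → ℝ => (fun i => x (Fin.castAdd n i))) := by fun_prop
    have p2 : Continuous (fun x : Fin (m + n) → ℝ => (fun i => x (Fin.natAdd m i))) := by fun_prop
    exact Filter.inter_mem (p1.continuousAt.preimage_mem_nhds k3)
      (p2.continuousAt.preimage_mem_nhds m3)

lemma Mi_prod {m n : ℕ} {K : Set (Fin m → ℝ)} {M : Set (Fin n → ℝ)} (hK : Bd K) (hM : Bd M) :
    Mi (prodB K M) = Mi K * Mi M := by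
  unfold Mi
  have h1 : volume (prodB K M) = volume K * volume M := by
    rw [← (app_mp m n).measure_preimage_equiv, app_pre, Measure.volume_eq_prod, Measure.prod_prod]
  have h2 : ∫⁻ y : Fin (m + n) → ℝ, ENNReal.ofReal (Real.exp (-(hs (prodB K M) y))) =
      (∫⁻ y : Fin m → ℝ, ENNReal.ofReal (Real.exp (-(hs K y)))) *
      ∫⁻ y : Fin n → ℝ, ENNReal.ofReal (Real.exp (-(hs M y))) := by
    rw [← (app_mp m n).map_eq, lintegral_map_equiv]
    have h3 : ∀ z, ENNReal.ofReal (Real.exp (-(hs (prodB K M) (app m n z)))) =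
        ENNReal.ofReal (Real.exp (-(hs K z.1))) * ENNReal.ofReal (Real.exp (-(hs M z.2))) := by
      intro z
      rw [hs_prod hK hM, ← ENNReal.ofReal_mul (Real.exp_pos _).le, ← Real.exp_add, neg_add]
    simp only [h3]
    have c1 := hs_cont hK.2.1
    have c2 := hs_cont hM.2.1
    rw [Measure.volume_eq_prod, lintegral_prod_mul
      (f := fun y => ENNReal.ofReal (Real.exp (-(hs K y))))
      (g := fun y => ENNReal.ofReal (Real.exp (-(hs M y))))
      (by have := c1.measurable; fun_prop) (by have := c2.measurable; fun_prop)]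
  rw [h1, h2]
  ring

lemma Mi_zero : Bd (Set.univ : Set (Fin 0 → ℝ)) ∧ Mi (Set.univ : Set (Fin 0 → ℝ)) = 1 := by
  refine ⟨⟨convex_univ, Set.finite_univ.isCompact, by simp⟩, ?_⟩
  unfold Mi
  have h1 : volume (Set.univ : Set (Fin 0 → ℝ)) = 1 := by
    rw [volume_pi, Measure.pi_univ]
    simp
  have h2 : ∀ y : Fin 0 → ℝ, hs (Set.univ : Set (Fin 0 → ℝ)) y = 0 := by
    intro y
    unfold hs
    have : (fun x : Fin 0 → ℝ => x ⬝ᵥ y) = fun _ => 0 := by
      funext x
      simp [dotProduct]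
    rw [this, Set.Nonempty.image_const Set.univ_nonempty, csSup_singleton]
  simp only [h2]
  simp [h1]

theorem tens_aux (n : ℕ) (K : Set (Fin n → ℝ)) (hK : Bd K) (N : ℕ) : ∀ m, m = N * n →
    ∃ L : Set (Fin m → ℝ), Bd L ∧ Mi L = Mi K ^ N := by
  induction N with
  | zero =>
    intro m hm
    rw [Nat.zero_mul] at hm
    subst hm
    exact ⟨Set.univ, Mi_zero.1, by rw [Mi_zero.2, pow_zero]⟩
  | succ N ih =>
    intro m hm
    obtain ⟨L, hL, hLM⟩ := ih (N * n) rfl
    rw [Nat.succ_mul] at hm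
    subst hm
    exact ⟨prodB L K, bd_prod hL hK, by rw [Mi_prod hL hK, hLM, pow_succ]⟩

theorem tens_thm : S_TENS := fun n N K hK => tens_aux n K hK N (N * n) rfl

end MH.H79
end
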